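import Mathlib
import Pool.Agent.Helper5.DCD.Red

/-!
# Module H2: the edges of a Hamiltonian cycle
-/

open Equiv Equiv.Perm Helper5.CR

namespace Helper5.DCD

/-- if every edge of a walk is realised by a pair of equivalent half-edges, then the half-edges at
the two ends of the walk are equivalent -/
theorem rel_of_walk (G : PlaneGraph) (c : Setoid (Fin G.m × Bool))
    (hc : ∀ d d', G.vtx d = G.vtx d' → c d d') (H : SimpleGraph G.V)
    (hH : ∀ v w, H.Adj v w → ∃ d d', G.vtx d = v ∧ G.vtx d' = w ∧ c d d')
    {v w : G.V} (p : H.Walk v w) :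
    ∀ d d', G.vtx d = v → G.vtx d' = w → c d d' := by
  induction p with
  | nil => intro d d' h h'; exact hc _ _ (h.trans h'.symm)
  | cons h p ih =>
    intro d d' h1 h2
    obtain ⟨e, e', he, he', hee⟩ := hH _ _ h
    exact c.trans (hc _ _ (h1.trans he.symm)) (c.trans hee (ih _ _ he' h2))

/-- Module H2: the edges of a Hamiltonian cycle. -/
theorem of_ham (G : PlaneGraph) (h : G.graph.IsHamiltonian) :
    ∃ S : Set (Fin G.m), (∀ i ∈ S, comp G.σ (flipOn (S \ {i})) (i, false) (i, true)) ∧
      2 * ncomp G.σ (flipOn S) + Nat.card S ≤ nc G.σ + 2 := by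
  classical
  have hn : Fintype.card G.V = nc G.σ := by
    rw [← Nat.card_eq_fintype_card]; rfl
  have h3 := G.three
  obtain ⟨a, p, hp⟩ := h (by omega)
  obtain ⟨d0, hd0⟩ : ∃ d0, G.vtx d0 = a := Quotient.exists_rep a
  -- choice of a parallel class representative
  have hch : ∀ e : Sym2 G.V, ∃ i : Fin G.m, e ∈ G.graph.edgeSet →
      s(G.vtx (i, false), G.vtx (i, true)) = e := by
    intro e
    by_cases he : e ∈ G.graph.edgeSet
    · induction e using Sym2.ind with
      | _ v w =>
        rw [SimpleGraph.mem_edgeSet] at he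
        obtain ⟨-, i, s, h1, h2⟩ := he
        refine ⟨i, fun _ => ?_⟩
        cases s
        · rw [h1]
          simp only [Bool.not_false] at h2
          rw [h2]
        · rw [h1]
          simp only [Bool.not_true] at h2
          rw [h2, Sym2.eq_swap]
    · exact ⟨d0.1, fun h => absurd h he⟩
  choose ch hch using hch
  set S : Set (Fin G.m) := ch '' {e | e ∈ p.edges} with hS
  have hvtx : ∀ d d', G.vtx d = G.vtx d' ↔ G.σ.SameCycle d d' := by
    intro d d'
    exact ⟨fun h => Quotient.exact h, fun h => Quotient.sound h⟩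
  have hleft : ∀ (α : Perm (Fin G.m × Bool)) d d', G.vtx d = G.vtx d' → comp G.σ α d d' := by
    intro α d d' h
    have : SameCycle.setoid G.σ ≤ comp G.σ α := le_sup_left
    exact this ((hvtx _ _).1 h)
  have hright : ∀ (T : Set (Fin G.m)) i, i ∈ T → comp G.σ (flipOn T) (i, false) (i, true) := by
    intro T i hi
    have : SameCycle.setoid (flipOn T) ≤ comp G.σ (flipOn T) := le_sup_right
    refine this (show (flipOn T).SameCycle _ _ from ⟨1, ?_⟩)
    rw [zpow_one, flipOn_of_mem hi]; rfl
  -- an edge of the walk, seen in a set `T`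
  have hT : ∀ (T : Set (Fin G.m)) v w, s(v, w) ∈ p.edges → ch s(v, w) ∈ T →
      ∃ d d', G.vtx d = v ∧ G.vtx d' = w ∧ comp G.σ (flipOn T) d d' := by
    intro T v w he hi
    have h1 := hch _ (p.edges_subset_edgeSet he)
    rw [Sym2.eq_iff] at h1
    rcases h1 with ⟨h1, h2⟩ | ⟨h1, h2⟩
    · exact ⟨_, _, h1, h2, hright T _ hi⟩
    · exact ⟨_, _, h2, h1, (comp G.σ (flipOn T)).symm (hright T _ hi)⟩
  refine ⟨S, ?_, ?_⟩
  · -- no bridges
    rintro i ⟨e, he, rfl⟩
    have he' : e ∈ p.edges := he
    set H : SimpleGraph G.V := SimpleGraph.fromEdgeSet {e | e ∈ p.edges} with hHdef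
    have hpH : ∀ e ∈ p.edges, e ∈ H.edgeSet := by
      intro e he
      rw [hHdef, SimpleGraph.edgeSet_fromEdgeSet]
      exact ⟨he, fun h => G.graph.not_isDiag_of_mem_edgeSet (p.edges_subset_edgeSet he) h⟩
    have hcyc : (p.transfer H hpH).IsCycle := hp.isCycle.transfer hpH
    induction e using Sym2.ind with
    | _ v w =>
      have hreach : (H.deleteEdges {s(v, w)}).Reachable v w := by
        refine (SimpleGraph.adj_and_reachable_delete_edges_iff_exists_cycle.2
          ⟨a, p.transfer H hpH, hcyc, ?_⟩).2
        rw [SimpleGraph.Walk.edges_transfer]; exact he'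
      obtain ⟨q⟩ := hreach
      have h1 := hch _ (p.edges_subset_edgeSet he')
      have key := rel_of_walk G (comp G.σ (flipOn (S \ {ch s(v, w)}))) (hleft _)
        (H.deleteEdges {s(v, w)}) ?_ q
      · rw [Sym2.eq_iff] at h1
        rcases h1 with ⟨h1, h2⟩ | ⟨h1, h2⟩
        · exact key _ _ h1 h2
        · exact (comp G.σ (flipOn (S \ {ch s(v, w)}))).symm (key _ _ h2 h1)
      · intro x y hxy
        rw [SimpleGraph.deleteEdges_adj] at hxy
        have hxy1 : s(x, y) ∈ p.edges := by
          have := hxy.1
          rw [hHdef, SimpleGraph.fromEdgeSet_adj] at this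
          exact this.1
        refine hT _ x y hxy1 ⟨⟨_, hxy1, rfl⟩, ?_⟩
        intro heq
        have heq : ch s(x, y) = ch s(v, w) := heq
        apply hxy.2
        have h2 := hch _ (p.edges_subset_edgeSet hxy1)
        rw [heq, h1] at h2
        exact h2.symm
  · have hcard : Nat.card S ≤ nc G.σ := by
      rw [← hn, ← hp.length_eq, ← SimpleGraph.Walk.length_edges]
      have : S ⊆ ((p.edges.map ch).toFinset : Set (Fin G.m)) := by
        rintro i ⟨e, he, rfl⟩
        simp only [List.coe_toFinset, List.mem_map, Set.mem_ofPred_eq]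
        exact ⟨e, he, rfl⟩
      calc Nat.card S = S.ncard := rfl
        _ ≤ ((p.edges.map ch).toFinset : Set (Fin G.m)).ncard :=
            Set.ncard_le_ncard this (Finset.finite_toSet _)
        _ = (p.edges.map ch).toFinset.card := Set.ncard_coe_finset _
        _ ≤ (p.edges.map ch).length := List.toFinset_card_le _
        _ = p.edges.length := List.length_map _
    have hcomp : ncomp G.σ (flipOn S) ≤ 1 := by
      have hall : ∀ d, comp G.σ (flipOn S) d0 d := by
        intro d
        have hmem := hp.mem_support (G.vtx d)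
        set H : SimpleGraph G.V := SimpleGraph.fromEdgeSet {e | e ∈ p.edges} with hHdef
        have hpH : ∀ e ∈ p.edges, e ∈ H.edgeSet := by
          intro e he
          rw [hHdef, SimpleGraph.edgeSet_fromEdgeSet]
          exact ⟨he, fun h => G.graph.not_isDiag_of_mem_edgeSet (p.edges_subset_edgeSet he) h⟩
        have hmem' : G.vtx d ∈ (p.transfer H hpH).support := by
          rw [SimpleGraph.Walk.support_transfer]; exact hmem
        refine rel_of_walk G (comp G.σ (flipOn S)) (hleft _) H ?_
          ((p.transfer H hpH).takeUntil _ hmem') _ _ hd0 rfl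
        intro x y hxy
        have hxy1 : s(x, y) ∈ p.edges := by
          rw [hHdef, SimpleGraph.fromEdgeSet_adj] at hxy
          exact hxy.1
        exact hT _ x y hxy1 ⟨_, hxy1, rfl⟩
      unfold ncomp
      have : Subsingleton (Quotient (comp G.σ (flipOn S))) := by
        constructor
        intro x y
        refine Quotient.inductionOn₂ x y fun d d' => Quotient.sound ?_
        exact (comp G.σ (flipOn S)).trans ((comp G.σ (flipOn S)).symm (hall d)) (hall d')
      exact Finite.card_le_one_iff_subsingleton.2 this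
    omega

end Helper5.DCD
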